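import Mathlib

/-!
# Collapsible complexes, convex union representable complexes, subdivisions
-/

namespace Pool.Agent.H96.CUR

/-- `L` arises from `K` by an elementary collapse: `τ` is a free face of `K`, i.e. it is properly
contained in exactly one other face `σ` of `K`, and `L` arises from `K` by deleting `τ` and `σ`. -/
def ElemCollapse {V : Type*} (K L : PreAbstractSimplicialComplex V) : Prop :=
  ∃ τ σ : Finset V, τ ∈ K.faces ∧ σ ∈ K.faces ∧ τ ⊂ σ ∧ (∀ ρ ∈ K.faces, τ ⊂ ρ → ρ = σ) ∧
    L.faces = K.faces \ {τ, σ}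

/-- `K` is collapsible: some sequence of elementary collapses reduces it to a single vertex. -/
def Collapsible {V : Type*} (K : PreAbstractSimplicialComplex V) : Prop :=
  ∃ (L : PreAbstractSimplicialComplex V) (v : V), L.faces = {{v}} ∧
    Relation.ReflTransGen ElemCollapse K L

/-- The nerve of a family of sets. -/
def nerve {ι X : Type*} (U : ι → Set X) : PreAbstractSimplicialComplex ι where
  faces := {s | s.Nonempty ∧ (⋂ i ∈ s, U i).Nonempty}
  isRelLowerSet_faces := by
    rintro s ⟨hs, x, hx⟩
    refine ⟨hs, fun t hts ht => ⟨ht, x, ?_⟩⟩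
    simp only [Set.mem_iInter] at hx ⊢
    exact fun i hi => hx i (hts hi)

/-- `K` and `L` are isomorphic: an injective map `f` on the vertices of `K` maps the faces of `K`
onto the faces of `L`. -/
def Isomorphic {V W : Type*} (K : PreAbstractSimplicialComplex V)
    (L : PreAbstractSimplicialComplex W) : Prop :=
  ∃ f : V → W, Set.InjOn f {v | {v} ∈ K.faces} ∧
    ∀ t : Finset W, t ∈ L.faces ↔ ∃ s ∈ K.faces, (t : Set W) = f '' (s : Set V)

/-- `K` is convex union representable: it is isomorphic to the nerve of a finite family of convex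
open subsets of some `ℝ^d` whose union is also convex. -/
def ConvexUnionRepresentable {V : Type*} (K : PreAbstractSimplicialComplex V) : Prop :=
  ∃ (n d : ℕ) (U : Fin n → Set (EuclideanSpace ℝ (Fin d))),
    (∀ i, IsOpen (U i)) ∧ (∀ i, Convex ℝ (U i)) ∧ Convex ℝ (⋃ i, U i) ∧ Isomorphic K (nerve U)

/-- `K'` is a subdivision of `K`: there are geometric realizations `S'` of `K'` and `S` of `K` in
some `ℝ^N` such that every simplex of `S'` lies in a simplex of `S` and every simplex of `S` is
a union of simplices of `S'`. -/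
def IsSubdivision {V W : Type*} (K' : PreAbstractSimplicialComplex W)
    (K : PreAbstractSimplicialComplex V) : Prop :=
  ∃ (N : ℕ) (S' S : Geometry.SimplicialComplex ℝ (EuclideanSpace ℝ (Fin N))),
    Isomorphic K' S'.toPreAbstractSimplicialComplex ∧
    Isomorphic K S.toPreAbstractSimplicialComplex ∧
    (∀ s ∈ S'.faces, ∃ t ∈ S.faces,
      convexHull ℝ (s : Set (EuclideanSpace ℝ (Fin N))) ⊆ convexHull ℝ (t : Set _)) ∧
    (∀ t ∈ S.faces, ∃ A ⊆ S'.faces,
      convexHull ℝ (t : Set (EuclideanSpace ℝ (Fin N))) = ⋃ s ∈ A, convexHull ℝ (s : Set _))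

end Pool.Agent.H96.CUR
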