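import Pool.Agent.H96.CUR.Push
import Pool.Agent.H96.CUR.Defs

/-!
# Collapsible complexes: the induction over the elementary collapses
-/

namespace Pool.Agent.H96.CUR

open Finset

/-- The standard geometric realization of `K` in `V → ℝ`. -/
def spaceOf {V : Type*} [Fintype V] (K : PreAbstractSimplicialComplex V) : Set (V → ℝ) :=
  {x | Pt (fun s => s ∈ K.faces) x}

theorem real_single {W X : Type*} [Fintype W] [DecidableEq W] [AddCommGroup X] [Module ℝ X]
    (p : W → X) (w : W) : real p (Pi.single w 1) = p w := by
  simp [real, Pi.single_apply, ite_smul]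

theorem supp_single {W : Type*} [Fintype W] [DecidableEq W] (w : W) :
    supp (Pi.single w (1 : ℝ)) = {w} := by
  ext i
  rw [mem_supp, mem_singleton, Pi.single_apply]
  split_ifs with h <;> simp [h]

theorem pt_single {W : Type*} [Fintype W] [DecidableEq W] {F : Finset W → Prop} {w : W}
    (h : F {w}) : Pt F (Pi.single w 1) := by
  refine ⟨fun i => ?_, ?_, ?_⟩
  · rw [Pi.single_apply]
    split_ifs <;> norm_num
  · rw [sum_pi_single']
    simp
  · rw [supp_single]
    exact h

theorem good_base {V : Type*} [Fintype V] (K : PreAbstractSimplicialComplex V) (v : V)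
    (hK : K.faces = {{v}}) : Good (spaceOf K) := by
  classical
  refine ⟨Unit, inferInstance, ℝ, inferInstance, inferInstance, inferInstance,
    fun _ => Set.univ, fun _ => Pi.single v 1, ⟨fun _ => isOpen_univ, fun _ => convex_univ, ?_⟩,
    fun _ => Set.univ_nonempty, ?_, ?_⟩
  · rw [Set.iUnion_const]
    exact convex_univ
  · intro α β hα hβ _
    funext i
    have h1 := hα.2.1
    have h2 := hβ.2.1
    simp only [univ_unique, sum_singleton] at h1 h2
    cases i
    exact h1.trans h2.symm
  · intro x
    constructor
    · intro hx
      obtain ⟨h0, h1, h2⟩ := hx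
      simp only [hK, Set.mem_singleton_iff] at h2
      refine ⟨fun _ => 1, ⟨fun _ => zero_le_one, by simp, 0, fun _ _ => Set.mem_univ _⟩, ?_⟩
      have h3 : ∀ i, i ≠ v → x i = 0 := by
        intro i hi
        by_contra hne
        have := mem_supp.2 hne
        rw [h2, mem_singleton] at this
        exact hi this
      have h4 : x v = 1 := by
        rw [← h1]
        exact (sum_eq_single v (fun i _ hi => h3 i hi) (by simp)).symm
      funext i
      simp only [real, univ_unique, sum_singleton, one_smul, Pi.single_apply]
      split_ifs with hi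
      · rw [hi, h4]
      · exact (h3 i hi).symm
    · rintro ⟨α, hα, rfl⟩
      have h1 := hα.2.1
      simp only [univ_unique, sum_singleton] at h1
      have h2 : real (fun _ : Unit => (Pi.single v 1 : V → ℝ)) α = Pi.single v 1 := by
        simp only [real, univ_unique, sum_singleton]
        rw [h1, one_smul]
      rw [h2]
      exact pt_single (by rw [hK]; rfl)

theorem good_step {V : Type*} [Fintype V] (K L : PreAbstractSimplicialComplex V)
    (hKL : ElemCollapse K L) (hL : Good (spaceOf L)) : Good (spaceOf K) := by
  classical
  obtain ⟨τ, σ, hτ, hσ, hτσ, huniq, hLf⟩ := hKL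
  obtain ⟨W, _, E, _, _, _, U, p, hrep, hne, hinj, hreg⟩ := hL
  -- the vertex v
  obtain ⟨v, hvσ, hvτ⟩ := exists_of_ssubset hτσ
  have hins : insert v τ = σ := by
    apply huniq
    · exact (K.isRelLowerSet_faces hσ).2 (insert_subset hvσ hτσ.1) (insert_nonempty _ _)
    · exact ssubset_insert hvτ
  have hτne : τ.Nonempty := (K.isRelLowerSet_faces hτ).1
  have hcard : (0 : ℝ) < (τ.card : ℝ) := by
    exact_mod_cast hτne.card_pos
  set n : ℝ := (τ.card : ℝ) with hn
  have hninv : 0 < 1 / n := by positivity
  set u : V → ℝ := fun i => (if i ∈ τ then 1 / n else 0) - (if i = v then 1 else 0) with hu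
  have huv : u v = -1 := by simp [hu, hvτ]
  have huτ : ∀ i ∈ τ, u i = 1 / n := by
    intro i hi
    have : i ≠ v := fun h => hvτ (h ▸ hi)
    simp [hu, hi, this]
  have hu0 : ∀ i, i ∉ σ → u i = 0 := by
    intro i hi
    have h1 : i ∉ τ := fun h => hi (hτσ.1 h)
    have h2 : i ≠ v := fun h => hi (h ▸ hvσ)
    simp [hu, h1, h2]
  have husum : ∑ i, u i = 0 := by
    simp only [hu, sum_sub_distrib, sum_ite_eq', mem_univ, if_true, sum_ite_mem, univ_inter,
      sum_const, nsmul_eq_mul]
    rw [← hn]
    field_simp
    ring
  -- faces
  have hLK : ∀ s ∈ L.faces, s ∈ K.faces := fun s hs => by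
    rw [hLf] at hs
    exact hs.1
  have hKL' : ∀ s ∈ K.faces, s ∉ L.faces → s = τ ∨ s = σ := by
    intro s hs hsL
    by_contra hcon
    push Not at hcon
    apply hsL
    rw [hLf]
    exact ⟨hs, by simp [hcon.1, hcon.2]⟩
  have hτL : τ ∉ L.faces := by
    rw [hLf]
    simp
  have hσL : σ ∉ L.faces := by
    rw [hLf]
    simp
  have hKτ : ∀ s ∈ K.faces, τ ⊆ s → s = τ ∨ s = σ := by
    intro s hs hτs
    by_cases h : s = τ
    · exact Or.inl h
    · exact Or.inr (huniq s hs (hτs.ssubset_of_ne (Ne.symm h)))
  -- no point of the small complex has full support on τ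
  have hF1 : ∀ y ∈ spaceOf L, ∃ i ∈ τ, y i = 0 := by
    rintro y ⟨h0, h1, h2⟩
    by_contra hcon
    push Not at hcon
    have hsub : τ ⊆ supp y := fun i hi => mem_supp.2 (hcon i hi)
    rcases hKτ _ (hLK _ h2) hsub with h | h
    · exact hτL (h ▸ h2)
    · exact hσL (h ▸ h2)
  have hreal_mem : ∀ α, Pt (Meets U) α → real p α ∈ spaceOf L := fun α hα =>
    (hreg _).2 ⟨α, hα, rfl⟩
  have hp : ∀ w, p w ∈ spaceOf L := by
    intro w
    rw [← real_single p w]
    refine hreal_mem _ (pt_single ?_)
    obtain ⟨x, hx⟩ := hne w
    exact ⟨x, fun i hi => by rw [mem_singleton.1 hi]; exact hx⟩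
  set T : Finset W := univ.filter fun w => ∀ i, i ∉ σ → p w i = 0 with hT
  have hreal_apply : ∀ (α : W → ℝ) (i : V), real p α i = ∑ w, α w * p w i := by
    intro α i
    simp [real, Finset.sum_apply]
  have hTσ : ∀ α, supp α ⊆ T → ∀ i, i ∉ σ → real p α i = 0 := by
    intro α hα i hi
    rw [hreal_apply]
    refine sum_eq_zero fun w _ => ?_
    by_cases hw : α w = 0
    · simp [hw]
    · have := hα (mem_supp.2 hw)
      rw [hT, mem_filter] at this
      rw [this.2 i hi, mul_zero]
  set h : (V → ℝ) →ₗ[ℝ] ℝ := LinearMap.proj v with hh
  have hhx : ∀ x : V → ℝ, h x = x v := fun x => rfl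
  refine good_of_push h u (by rw [hhx, huv]) (spaceOf K) _ W inferInstance E inferInstance
    inferInstance inferInstance U p T ⟨hrep, hne, hinj, ?_, ?_, ?_, ?_⟩ rfl
  · -- above
    intro α β hα hβ hs l hl hle heq
    obtain ⟨i, hi, h0⟩ := hF1 _ (hreal_mem α hα)
    rw [← heq, Pi.add_apply, Pi.smul_apply, huτ i hi, smul_eq_mul] at h0
    have h1 := (hreal_mem β hβ).1 i
    have h2 := mul_pos hl hninv
    linarith
  · -- graph
    intro β γ hβ hγ hsβ hsγ l m hl hle1 hm hle2 heq
    apply le_antisymm
    · obtain ⟨i, hi, h0⟩ := hF1 _ (hreal_mem γ hγ)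
      have h1 := congrFun heq i
      rw [Pi.add_apply, Pi.smul_apply, Pi.add_apply, Pi.smul_apply, huτ i hi, h0, smul_eq_mul,
        smul_eq_mul] at h1
      have h2 := (hreal_mem β hβ).1 i
      have h3 : l * (1 / n) ≤ m * (1 / n) := by linarith
      exact le_of_mul_le_mul_right h3 hninv
    · obtain ⟨i, hi, h0⟩ := hF1 _ (hreal_mem β hβ)
      have h1 := congrFun heq i
      rw [Pi.add_apply, Pi.smul_apply, Pi.add_apply, Pi.smul_apply, huτ i hi, h0, smul_eq_mul,
        smul_eq_mul] at h1
      have h2 := (hreal_mem γ hγ).1 i
      have h3 : m * (1 / n) ≤ l * (1 / n) := by linarith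
      exact le_of_mul_le_mul_right h3 hninv
  · -- region
    intro x
    constructor
    · intro hx
      obtain ⟨h0, h1, h2⟩ := hx
      by_cases hxL : supp x ∈ L.faces
      · left
        exact (hreg x).1 ⟨h0, h1, hxL⟩
      · right
        have hτx : τ ⊆ supp x ∧ supp x ⊆ σ := by
          rcases hKL' _ h2 hxL with h | h
          · rw [h]
            exact ⟨Subset.rfl, hτσ.1⟩
          · rw [h]
            exact ⟨hτσ.1, Subset.rfl⟩
        obtain ⟨i₀, hi₀, hmin⟩ := exists_min_image τ x hτne
        have hxi₀ : 0 < x i₀ := lt_of_le_of_ne (h0 _) (Ne.symm (mem_supp.1 (hτx.1 hi₀)))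
        set m := n * x i₀ with hm
        have hmpos : 0 < m := mul_pos hcard hxi₀
        have hmn : m * (1 / n) = x i₀ := by
          rw [hm]
          field_simp
        set y : V → ℝ := x - m • u with hy
        have hyτ : ∀ i ∈ τ, y i = x i - x i₀ := by
          intro i hi
          rw [hy, Pi.sub_apply, Pi.smul_apply, huτ i hi, smul_eq_mul, hmn]
        have hyv : y v = x v + m := by
          rw [hy, Pi.sub_apply, Pi.smul_apply, huv, smul_eq_mul]
          ring
        have hyσ : ∀ i, i ∉ σ → y i = 0 := by
          intro i hi
          rw [hy, Pi.sub_apply, Pi.smul_apply, hu0 i hi, smul_zero, sub_zero]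
          by_contra hne'
          exact hi (hτx.2 (mem_supp.2 hne'))
        have hyL : y ∈ spaceOf L := by
          refine ⟨?_, ?_, ?_⟩
          · intro i
            by_cases hiσ : i ∈ σ
            · rw [← hins, mem_insert] at hiσ
              rcases hiσ with rfl | hi
              · rw [hyv]
                have := h0 i
                linarith
              · rw [hyτ i hi]
                have := hmin i hi
                linarith
            · rw [hyσ i hiσ]
          · simp only [hy, Pi.sub_apply, Pi.smul_apply, sum_sub_distrib, smul_eq_mul,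
              ← mul_sum, husum, h1]
            ring
          · have hvs : v ∈ supp y := by
              rw [mem_supp, hyv]
              have := h0 v
              linarith
            have hsσ : supp y ⊆ σ := by
              intro i hi
              by_contra hiσ
              exact (mem_supp.1 hi) (hyσ i hiσ)
            have hsK : supp y ∈ K.faces := (K.isRelLowerSet_faces hσ).2 hsσ ⟨v, hvs⟩
            change supp y ∈ L.faces
            rw [hLf]
            refine ⟨hsK, ?_⟩
            simp only [Set.mem_insert_iff, Set.mem_singleton_iff, not_or]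
            constructor
            · intro h
              exact hvτ (h ▸ hvs)
            · intro h
              have h3 : i₀ ∈ supp y := by
                rw [h]
                exact hτσ.1 hi₀
              rw [mem_supp, hyτ i₀ hi₀, sub_self] at h3
              exact h3 rfl
        obtain ⟨β, hβ, hβy⟩ := (hreg y).1 hyL
        refine ⟨β, hβ, ?_, m, hmpos.le, ?_, ?_⟩
        · intro w hw
          rw [hT, mem_filter]
          refine ⟨mem_univ _, fun i hi => ?_⟩
          have h3 := hyσ i hi
          rw [← hβy, hreal_apply] at h3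
          have h4 := (sum_eq_zero_iff_of_nonneg (fun w _ =>
            mul_nonneg (hβ.1 w) ((hp w).1 i))).1 h3 w (mem_univ _)
          rcases mul_eq_zero.1 h4 with h5 | h5
          · exact absurd h5 (mem_supp.1 hw)
          · exact h5
        · rw [hβy, hhx, hyv]
          have := h0 v
          linarith
        · rw [hβy, hy, sub_add_cancel]
    · rintro (hx | ⟨β, hβ, hs, l, hl, hle, rfl⟩)
      · have hxL := (hreg x).2 hx
        exact ⟨hxL.1, hxL.2.1, hLK _ hxL.2.2⟩
      · have hyL := hreal_mem β hβ
        rcases hl.eq_or_lt with hl0 | hl0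
        · rw [← hl0, zero_smul, add_zero]
          exact ⟨hyL.1, hyL.2.1, hLK _ hyL.2.2⟩
        · have hval : ∀ i, (real p β + l • u) i = real p β i + l * u i := fun i => rfl
          have hpos : ∀ i ∈ τ, 0 < (real p β + l • u) i := by
            intro i hi
            rw [hval, huτ i hi]
            have h1 := hyL.1 i
            have h2 := mul_pos hl0 hninv
            linarith
          have hzero : ∀ i, i ∉ σ → (real p β + l • u) i = 0 := by
            intro i hi
            rw [hval, hu0 i hi, hTσ β hs i hi]
            ring
          refine ⟨?_, ?_, ?_⟩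
          · intro i
            by_cases hiσ : i ∈ σ
            · rw [← hins, mem_insert] at hiσ
              rcases hiσ with rfl | hi
              · rw [hval, huv]
                rw [hhx] at hle
                linarith
              · exact (hpos i hi).le
            · rw [hzero i hiσ]
          · simp only [hval, sum_add_distrib, ← mul_sum, husum, hyL.2.1]
            ring
          · have h1 : τ ⊆ supp (real p β + l • u) := fun i hi => mem_supp.2 (hpos i hi).ne'
            have h2 : supp (real p β + l • u) ⊆ σ := by
              intro i hi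
              by_contra hiσ
              exact (mem_supp.1 hi) (hzero i hiσ)
            change supp (real p β + l • u) ∈ K.faces
            exact (K.isRelLowerSet_faces hσ).2 h2 (hτne.mono h1)
  · -- nonneg
    intro w _
    exact (hp w).1 v

theorem good_of_collapsible {V : Type*} [Fintype V] (K : PreAbstractSimplicialComplex V)
    (hK : Collapsible K) : Good (spaceOf K) := by
  obtain ⟨L, v, hL, hc⟩ := hK
  induction hc using Relation.ReflTransGen.head_induction_on with
  | refl => exact good_base L v hL
  | head h _ ih => exact good_step _ _ h ih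

end Pool.Agent.H96.CUR
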