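import Mathlib

/-!
# The cone attachment lemma for nerves of open convex sets with convex union
-/

namespace Pool.Agent.H96.CUR

open Finset

/-- A family of open convex sets with convex union. -/
structure Rep {W E : Type*} [NormedAddCommGroup E] [NormedSpace ℝ E] (U : W → Set E) : Prop where
  isOpen : ∀ i, IsOpen (U i)
  conv : ∀ i, Convex ℝ (U i)
  conv_union : Convex ℝ (⋃ i, U i)

/-- The sets `U i`, `i ∈ s`, have a common point. -/
def Meets {W E : Type*} (U : W → Set E) (s : Finset W) : Prop := ∃ x, ∀ i ∈ s, x ∈ U i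

theorem Meets.mono {W E : Type*} {U : W → Set E} {s t : Finset W} (h : Meets U t) (hst : s ⊆ t) :
    Meets U s := by
  obtain ⟨x, hx⟩ := h
  exact ⟨x, fun i hi => hx i (hst hi)⟩

section

variable {W E : Type*} [NormedAddCommGroup E] [NormedSpace ℝ E]

/-- The hypograph of the concave function `ε - dist(x, P)`. -/
def Hyp (P : Set E) (ε : ℝ) : Set (E × ℝ) := {z | ∃ p ∈ P, ‖z.1 - p‖ + z.2 < ε}

omit [NormedSpace ℝ E] in
theorem isOpen_hyp (P : Set E) (ε : ℝ) : IsOpen (Hyp P ε) := by
  have : Hyp P ε = ⋃ p ∈ P, {z : E × ℝ | ‖z.1 - p‖ + z.2 < ε} := by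
    ext z
    simp [Hyp]
  rw [this]
  refine isOpen_biUnion fun p _ => isOpen_lt ?_ continuous_const
  fun_prop

theorem convex_hyp {P : Set E} (hP : Convex ℝ P) (ε : ℝ) : Convex ℝ (Hyp P ε) := by
  rintro z ⟨p, hp, hz⟩ z' ⟨p', hp', hz'⟩ a b ha hb hab
  refine ⟨a • p + b • p', hP hp hp' ha hb hab, ?_⟩
  have h1 : (a • z + b • z').1 - (a • p + b • p') = a • (z.1 - p) + b • (z'.1 - p') := by
    simp only [Prod.fst_add, Prod.smul_fst, smul_sub]
    abel
  have h2 : (a • z + b • z').2 = a * z.2 + b * z'.2 := by simp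
  rw [h1, h2]
  have h3 : ‖a • (z.1 - p) + b • (z'.1 - p')‖ ≤ a * ‖z.1 - p‖ + b * ‖z'.1 - p'‖ := by
    refine (norm_add_le _ _).trans ?_
    rw [norm_smul, norm_smul, Real.norm_of_nonneg ha, Real.norm_of_nonneg hb]
  rcases ha.eq_or_lt with ha0 | ha0
  · subst ha0
    have hb1 : b = 1 := by linarith
    subst hb1
    linarith
  · have h4 : a * (‖z.1 - p‖ + z.2) < a * ε := mul_lt_mul_of_pos_left hz ha0
    have h5 : b * (‖z'.1 - p'‖ + z'.2) ≤ b * ε := mul_le_mul_of_nonneg_left hz'.le hb
    have h6 : a * ε + b * ε = ε := by rw [← add_mul, hab, one_mul]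
    nlinarith

/-- **Cone attachment lemma.** Let `U` be a family of open convex sets with convex union, `T` a
set of indices and `v ∈ T` with `U v` nonempty. Then the complex obtained from the nerve of `U`
by attaching a cone (with new apex `none`) over `v * {s ⊆ T | s ∪ {v} a face}` is again the nerve
of a family of open convex sets with convex union. -/
theorem cone_step [Fintype W] [DecidableEq W] (U : W → Set E) (hU : Rep U) (v : W)
    (T : Finset W) (hv : v ∈ T) (hne : (U v).Nonempty) :
    ∃ U' : Option W → Set (E × ℝ), Rep U' ∧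
      (∀ s : Finset (Option W), none ∉ s → (Meets U' s ↔ Meets U (eraseNone s))) ∧
      (∀ s : Finset (Option W), none ∈ s →
        (Meets U' s ↔ eraseNone s ⊆ T ∧ Meets U (insert v (eraseNone s)))) := by
  classical
  -- the points
  obtain ⟨x₀, hx₀⟩ := hne
  let pt : Finset W → E := fun s =>
    if h : Meets U (insert v s) then h.choose else x₀
  have hpt : ∀ s, pt s ∈ U v := by
    intro s
    by_cases h : Meets U (insert v s)
    · simp only [pt, dif_pos h]
      exact h.choose_spec v (mem_insert_self _ _)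
    · simp only [pt, dif_neg h]
      exact hx₀
  have hpt' : ∀ s, Meets U (insert v s) → ∀ i ∈ s, pt s ∈ U i := by
    intro s h i hi
    simp only [pt, dif_pos h]
    exact h.choose_spec i (mem_insert_of_mem hi)
  let P : Set E := convexHull ℝ (Set.range pt)
  have hPc : Convex ℝ P := convex_convexHull ℝ _
  have hPsub : P ⊆ U v := convexHull_min (by rintro _ ⟨s, rfl⟩; exact hpt s) (hU.conv v)
  have hPcomp : IsCompact P := (Set.finite_range pt).isCompact_convexHull (𝕜 := ℝ)
  have hptP : ∀ s, pt s ∈ P := fun s => subset_convexHull ℝ _ ⟨s, rfl⟩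
  obtain ⟨ε, hε, hεU⟩ := hPcomp.exists_thickening_subset_open (hU.isOpen v) hPsub
  have hH : ∀ z ∈ Hyp P ε, 0 ≤ z.2 → z.1 ∈ U v := by
    rintro z ⟨p, hp, hz⟩ h0
    apply hεU
    rw [Metric.mem_thickening_iff]
    refine ⟨p, hp, ?_⟩
    rw [dist_eq_norm]
    linarith
  have hHo := isOpen_hyp P ε
  have hHc := convex_hyp hPc ε
  have hlow : ∀ x : E, ∃ t : ℝ, t < 0 ∧ (x, t) ∈ Hyp P ε := by
    intro x
    refine ⟨-‖x - pt ∅‖ - 1, by linarith [norm_nonneg (x - pt ∅)], pt ∅, hptP ∅, ?_⟩
    simp only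
    linarith
  let h : W → ℝ := fun i => if i ∈ T then ε / 2 else 0
  have hh0 : ∀ i, 0 ≤ h i := by
    intro i
    simp only [h]
    split_ifs <;> linarith
  let U' : Option W → Set (E × ℝ) := fun o =>
    match o with
    | none => {z | 0 < z.2} ∩ Hyp P ε
    | some i => (Prod.fst ⁻¹' (U i) ∩ {z | z.2 < h i}) ∩ Hyp P ε
  have hfst : ∀ i, Convex ℝ (Prod.fst ⁻¹' (U i) : Set (E × ℝ)) := fun i =>
    (hU.conv i).linear_preimage (LinearMap.fst ℝ E ℝ)
  have hUnion : (⋃ o, U' o) = (Prod.fst ⁻¹' (⋃ i, U i) : Set (E × ℝ)) ∩ Hyp P ε := by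
    ext z
    simp only [Set.mem_iUnion, Set.mem_inter_iff, Set.mem_preimage]
    constructor
    · rintro ⟨o, ho⟩
      cases o with
      | none => exact ⟨⟨v, hH z ho.2 (le_of_lt ho.1)⟩, ho.2⟩
      | some i => exact ⟨⟨i, ho.1.1⟩, ho.2⟩
    · rintro ⟨⟨i, hi⟩, hz⟩
      by_cases h0 : z.2 < 0
      · exact ⟨some i, ⟨hi, lt_of_lt_of_le h0 (hh0 i)⟩, hz⟩
      · push Not at h0
        by_cases h1 : z.2 < ε / 2
        · refine ⟨some v, ⟨hH z hz h0, ?_⟩, hz⟩
          simp only [Set.mem_ofPred_eq, h, if_pos hv]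
          exact h1
        · push Not at h1
          exact ⟨none, lt_of_lt_of_le (by linarith) h1, hz⟩
  refine ⟨U', ⟨?_, ?_, ?_⟩, ?_, ?_⟩
  · intro o
    cases o with
    | none => exact (isOpen_lt continuous_const continuous_snd).inter hHo
    | some i =>
      exact (((hU.isOpen i).preimage continuous_fst).inter
        (isOpen_lt continuous_snd continuous_const)).inter hHo
  · intro o
    cases o with
    | none =>
      refine Convex.inter ?_ hHc
      exact (convex_Ioi (0 : ℝ)).linear_preimage (LinearMap.snd ℝ E ℝ)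
    | some i =>
      refine Convex.inter (Convex.inter (hfst i) ?_) hHc
      exact (convex_Iio (h i)).linear_preimage (LinearMap.snd ℝ E ℝ)
  · rw [hUnion]
    exact (hU.conv_union.linear_preimage (LinearMap.fst ℝ E ℝ)).inter hHc
  · intro s hs
    constructor
    · rintro ⟨z, hz⟩
      refine ⟨z.1, fun i hi => ?_⟩
      exact (hz (some i) (mem_eraseNone.1 hi)).1.1
    · rintro ⟨x, hx⟩
      obtain ⟨t, ht, hxt⟩ := hlow x
      refine ⟨(x, t), fun o ho => ?_⟩
      cases o with
      | none => exact absurd ho hs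
      | some i => exact ⟨⟨hx i (mem_eraseNone.2 ho), lt_of_lt_of_le ht (hh0 i)⟩, hxt⟩
  · intro s hs
    constructor
    · rintro ⟨z, hz⟩
      have h0 : 0 < z.2 := (hz none hs).1
      have hzv : z.1 ∈ U v := hH z (hz none hs).2 h0.le
      refine ⟨?_, z.1, ?_⟩
      · intro i hi
        by_contra hiT
        have := (hz (some i) (mem_eraseNone.1 hi)).1.2
        simp only [Set.mem_ofPred_eq, h, if_neg hiT] at this
        linarith
      · intro i hi
        rcases mem_insert.1 hi with rfl | hi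
        · exact hzv
        · exact (hz (some i) (mem_eraseNone.1 hi)).1.1
    · rintro ⟨hsT, hm⟩
      refine ⟨(pt (eraseNone s), ε / 4), ?_⟩
      have hmem : (pt (eraseNone s), ε / 4) ∈ Hyp P ε := by
        refine ⟨pt (eraseNone s), hptP _, ?_⟩
        simp only [sub_self, norm_zero, zero_add]
        linarith
      intro o ho
      cases o with
      | none =>
        refine ⟨?_, hmem⟩
        simp only [Set.mem_ofPred_eq]
        linarith
      | some i =>
        have hi : i ∈ eraseNone s := mem_eraseNone.2 ho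
        refine ⟨⟨hpt' _ hm i hi, ?_⟩, hmem⟩
        simp only [Set.mem_ofPred_eq, h, if_pos (hsT hi)]
        linarith

end

end Pool.Agent.H96.CUR
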