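import Pool.Agent.H96.CUR.Realize

/-!
# Every collapsible complex has a convex union representable subdivision
-/

namespace Pool.Agent.H96.CUR

open Finset

theorem real_comp {V W X : Type*} [Fintype V] [Fintype W] [AddCommGroup X] [Module ℝ X]
    (p : W → (V → ℝ)) (q : V → X) (α : W → ℝ) :
    real (fun w => real q (p w)) α = real q (real p α) := by
  simp only [real, smul_sum, Finset.sum_apply, Pi.smul_apply, smul_eq_mul, sum_smul, smul_smul]
  exact sum_comm

theorem main {V : Type*} [Finite V] (K : PreAbstractSimplicialComplex V) (hK : Collapsible K) :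
    ∃ (W : Type) (_ : Finite W) (K' : PreAbstractSimplicialComplex W),
      IsSubdivision K' K ∧ ConvexUnionRepresentable K' := by
  classical
  cases nonempty_fintype V
  obtain ⟨W, _, E, _, _, _, U, p, hrep, hne, hinj, hreg⟩ := good_of_collapsible K hK
  -- the new complex
  set K' : PreAbstractSimplicialComplex W := nerve U with hK'
  have hmem : ∀ s : Finset W, s ∈ K'.faces ↔ s.Nonempty ∧ Meets U s := by
    intro s
    change (s.Nonempty ∧ (⋂ i ∈ s, U i).Nonempty) ↔ _
    simp only [Set.Nonempty, Set.mem_iInter, Meets]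
  have hpt : ∀ α : W → ℝ, Pt (fun s => s ∈ K'.faces) α ↔ Pt (Meets U) α := by
    intro α
    constructor
    · rintro ⟨h0, h1, h2⟩
      exact ⟨h0, h1, ((hmem _).1 h2).2⟩
    · rintro ⟨h0, h1, h2⟩
      refine ⟨h0, h1, (hmem _).2 ⟨?_, h2⟩⟩
      by_contra hcon
      rw [not_nonempty_iff_eq_empty] at hcon
      have h3 : ∀ w, α w = 0 := by
        intro w
        by_contra hne
        have := mem_supp.2 hne
        rw [hcon] at this
        simp at this
      simp [h3] at h1
  -- the ambient space
  set N := Fintype.card V with hN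
  set q : V → EuclideanSpace ℝ (Fin N) := fun v =>
    EuclideanSpace.single (Fintype.equivFin V v) 1 with hq
  have hqinj : ∀ x y : V → ℝ, real q x = real q y → x = y := by
    intro x y hxy
    funext v
    have h1 : ∀ z : V → ℝ, (real q z) (Fintype.equivFin V v) = z v := by
      intro z
      simp only [real, hq, WithLp.ofLp_sum, Finset.sum_apply, WithLp.ofLp_smul, Pi.smul_apply,
        PiLp.single_apply, smul_eq_mul, EmbeddingLike.apply_eq_iff_eq, mul_ite, mul_one, mul_zero,
        sum_ite_eq, mem_univ, if_true]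
    rw [← h1 x, ← h1 y, hxy]
  obtain ⟨S, hS1, hS2⟩ := exists_realization K q (fun α β _ _ h => hqinj α β h)
  set q' : W → EuclideanSpace ℝ (Fin N) := fun w => real q (p w) with hq'
  obtain ⟨S', hS'1, hS'2⟩ := exists_realization K' q' (by
    intro α β hα hβ h
    rw [hq', real_comp, real_comp] at h
    exact hinj α β ((hpt α).1 hα) ((hpt β).1 hβ) (hqinj _ _ h))
  have hreal_mem : ∀ α, Pt (Meets U) α → real p α ∈ spaceOf K := fun α hα =>
    (hreg _).2 ⟨α, hα, rfl⟩
  have hp : ∀ w, p w ∈ spaceOf K := by
    intro w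
    rw [← real_single p w]
    refine hreal_mem _ (pt_single ?_)
    obtain ⟨x, hx⟩ := hne w
    exact ⟨x, fun i hi => by rw [mem_singleton.1 hi]; exact hx⟩
  have hreal_apply : ∀ (α : W → ℝ) (i : V), real p α i = ∑ w, α w * p w i := by
    intro α i
    simp [real, Finset.sum_apply]
  have hzero : ∀ α : W → ℝ, (∀ w, 0 ≤ α w) → ∀ i, real p α i = 0 → ∀ w, α w ≠ 0 → p w i = 0 := by
    intro α hα i h0 w hw
    rw [hreal_apply] at h0
    have h4 := (sum_eq_zero_iff_of_nonneg (fun w _ => mul_nonneg (hα w) ((hp w).1 i))).1 h0 w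
      (mem_univ _)
    rcases mul_eq_zero.1 h4 with h5 | h5
    · exact absurd h5 hw
    · exact h5
  -- a simplex of `S'` whose vertices are supported in the face `t`
  have hsub : ∀ (s : Finset W) (t : Finset V), (∀ w ∈ s, ∀ i, i ∉ t → p w i = 0) →
      convexHull ℝ (q' '' (s : Set W)) ⊆ convexHull ℝ (q '' (t : Set V)) := by
    intro s t hst
    refine convexHull_min ?_ (convex_convexHull ℝ _)
    rintro _ ⟨w, hw, rfl⟩
    rw [mem_convexHull_image]
    exact ⟨p w, (hp w).1, hst w hw, (hp w).2.1, rfl⟩
  refine ⟨W, inferInstance, K', ⟨N, S', S, ⟨q', hS'1, hS'2⟩, ⟨q, hS1, hS2⟩, ?_, ?_⟩, ?_⟩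
  · intro s' hs'
    obtain ⟨s, hs, hss'⟩ := (hS'2 s').1 hs'
    -- the barycentre of `s`
    have hsne := ((hmem s).1 hs).1
    have hcard : (0 : ℝ) < (s.card : ℝ) := by exact_mod_cast hsne.card_pos
    set b : W → ℝ := fun w => if w ∈ s then 1 / (s.card : ℝ) else 0 with hb
    have hb0 : ∀ w, 0 ≤ b w := by
      intro w
      simp only [hb]
      split_ifs <;> positivity
    have hbpt : Pt (Meets U) b := by
      rw [← hpt]
      refine pt_of_face K' hs hb0 ?_ ?_
      · intro w hw
        simp [hb, hw]
      · simp only [hb, sum_ite_mem, univ_inter, sum_const, nsmul_eq_mul]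
        field_simp
    have hbK := hreal_mem b hbpt
    have htK : supp (real p b) ∈ K.faces := hbK.2.2
    obtain ⟨t', ht'⟩ : ∃ t' : Finset (EuclideanSpace ℝ (Fin N)),
        (t' : Set _) = q '' ((supp (real p b) : Finset V) : Set V) :=
      ⟨(supp (real p b)).image q, by simp⟩
    refine ⟨t', (hS2 t').2 ⟨_, htK, ht'⟩, ?_⟩
    rw [hss', ht']
    refine hsub _ _ ?_
    intro w hw i hi
    refine hzero b hb0 i ?_ w ?_
    · by_contra hne'
      exact hi (mem_supp.2 hne')
    · simp only [hb, if_pos hw]
      positivity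
  · intro t' ht'
    obtain ⟨t, ht, htt'⟩ := (hS2 t').1 ht'
    refine ⟨{s | s ∈ S'.faces ∧ convexHull ℝ (s : Set (EuclideanSpace ℝ (Fin N))) ⊆
      convexHull ℝ (t' : Set _)}, fun s hs => hs.1, ?_⟩
    apply Set.Subset.antisymm
    · intro x hx
      rw [htt', mem_convexHull_image] at hx
      obtain ⟨z, hz0, hz1, hz2, rfl⟩ := hx
      obtain ⟨α, hα, hαz⟩ := (hreg z).1 (pt_of_face K ht hz0 hz1 hz2)
      have hαf : supp α ∈ K'.faces := ((hpt α).2 hα).2.2
      obtain ⟨s', hs'⟩ : ∃ s' : Finset (EuclideanSpace ℝ (Fin N)),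
          (s' : Set _) = q' '' ((supp α : Finset W) : Set W) :=
        ⟨(supp α).image q', by simp⟩
      rw [Set.mem_iUnion₂]
      refine ⟨s', ⟨(hS'2 s').2 ⟨_, hαf, hs'⟩, ?_⟩, ?_⟩
      · rw [hs', htt']
        refine hsub _ _ ?_
        intro w hw i hi
        refine hzero α hα.1 i ?_ w (mem_supp.1 hw)
        rw [hαz]
        exact hz1 i hi
      · rw [hs', mem_convexHull_image]
        refine ⟨α, hα.1, ?_, hα.2.1, ?_⟩
        · intro w hw
          by_contra hne'
          exact hw (mem_supp.2 hne')
        · rw [hq', real_comp, hαz]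
    · intro x hx
      rw [Set.mem_iUnion₂] at hx
      obtain ⟨s, hs, hxs⟩ := hx
      exact hs.2 hxs
  · -- convex union representability
    set n := Fintype.card W with hn
    set d := Module.finrank ℝ E with hd
    let e : Fin n ≃ W := (Fintype.equivFin W).symm
    let f : EuclideanSpace ℝ (Fin d) ≃L[ℝ] E := ContinuousLinearEquiv.ofFinrankEq (by simp [hd])
    refine ⟨n, d, fun i => f ⁻¹' (U (e i)), ?_, ?_, ?_, e.symm, ?_, ?_⟩
    · intro i
      exact (hrep.isOpen _).preimage f.continuous
    · intro i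
      exact (hrep.conv _).linear_preimage f.toLinearMap
    · have h1 : (⋃ i, f ⁻¹' (U (e i))) = f ⁻¹' (⋃ w, U w) := by
        rw [← Set.preimage_iUnion]
        congr 1
        exact e.surjective.iUnion_comp U
      rw [h1]
      exact hrep.conv_union.linear_preimage f.toLinearMap
    · exact e.symm.injective.injOn
    · intro t
      constructor
      · rintro ⟨ht, x, hx⟩
        refine ⟨t.map e.toEmbedding, (hmem _).2 ⟨ht.map, f x, ?_⟩, ?_⟩
        · intro w hw
          rw [mem_map] at hw
          obtain ⟨i, hi, rfl⟩ := hw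
          simp only [Set.mem_iInter] at hx
          exact hx i hi
        · rw [coe_map]
          ext i
          simp
      · rintro ⟨s, hs, hts⟩
        obtain ⟨hs1, x, hx⟩ := (hmem s).1 hs
        have hi : ∀ i ∈ t, e i ∈ s := by
          intro i hi
          have : i ∈ (t : Set (Fin n)) := hi
          rw [hts] at this
          obtain ⟨w, hw, rfl⟩ := this
          simpa using hw
        refine ⟨?_, f.symm x, ?_⟩
        · rw [← coe_nonempty, hts]
          exact (coe_nonempty.2 hs1).image _
        · simp only [Set.mem_iInter, Set.mem_preimage, ContinuousLinearEquiv.apply_symm_apply]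
          intro i hi'
          exact hx _ (hi i hi')

end Pool.Agent.H96.CUR
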