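import Pool.Agent.H96.CUR.Cone

/-!
# Pushing the vertices of a surface
-/

namespace Pool.Agent.H96.CUR

open Finset

/-- The support of a function on a finite type. -/
noncomputable def supp {W : Type*} [Fintype W] (α : W → ℝ) : Finset W :=
  open Classical in univ.filter fun w => α w ≠ 0

theorem mem_supp {W : Type*} [Fintype W] {α : W → ℝ} {w : W} : w ∈ supp α ↔ α w ≠ 0 := by
  simp [supp]

/-- Barycentric coordinates of a point of the geometric realization. -/
def Pt {W : Type*} [Fintype W] (F : Finset W → Prop) (α : W → ℝ) : Prop :=
  (∀ w, 0 ≤ α w) ∧ ∑ w, α w = 1 ∧ F (supp α)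

/-- The point with barycentric coordinates `α`, if the vertices are `p`. -/
def real {W X : Type*} [Fintype W] [AddCommGroup X] [Module ℝ X] (p : W → X) (α : W → ℝ) : X :=
  ∑ w, α w • p w

structure PushState {W E X : Type*} [Fintype W] [NormedAddCommGroup E] [NormedSpace ℝ E]
    [AddCommGroup X] [Module ℝ X] (U : W → Set E) (p : W → X) (h : X →ₗ[ℝ] ℝ) (u : X)
    (R : Set X) (T : Finset W) : Prop where
  rep : Rep U
  ne : ∀ w, (U w).Nonempty
  inj : ∀ α β, Pt (Meets U) α → Pt (Meets U) β → real p α = real p β → α = β
  above : ∀ α β, Pt (Meets U) α → Pt (Meets U) β → supp β ⊆ T → ∀ l : ℝ, 0 < l →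
    l ≤ h (real p β) → real p β + l • u ≠ real p α
  graph : ∀ β γ, Pt (Meets U) β → Pt (Meets U) γ → supp β ⊆ T → supp γ ⊆ T → ∀ l m : ℝ, 0 ≤ l →
    l ≤ h (real p β) → 0 ≤ m → m ≤ h (real p γ) → real p β + l • u = real p γ + m • u → l = m
  region : ∀ x, x ∈ R ↔ (∃ α, Pt (Meets U) α ∧ real p α = x) ∨
    (∃ β, Pt (Meets U) β ∧ supp β ⊆ T ∧ ∃ l : ℝ, 0 ≤ l ∧ l ≤ h (real p β) ∧
      real p β + l • u = x)
  nonneg : ∀ w ∈ T, 0 ≤ h (p w)

section

variable {W E X : Type*} [Fintype W] [DecidableEq W] [NormedAddCommGroup E] [NormedSpace ℝ E]
    [AddCommGroup X] [Module ℝ X] {U : W → Set E} {p : W → X} {h : X →ₗ[ℝ] ℝ} {u : X}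
    {R : Set X} {T : Finset W}

/-- Coordinates on `W` of a point of the new complex. -/
def base (a : W) (α : Option W → ℝ) : W → ℝ := fun w => α (some w) + if w = a then α none else 0

omit [Fintype W] in
theorem base_self (a : W) (α : Option W → ℝ) : base a α a = α (some a) + α none := by
  simp [base]

omit [Fintype W] in
theorem base_ne {a w : W} (hw : w ≠ a) (α : Option W → ℝ) : base a α w = α (some w) := by
  simp [base, hw]

theorem real_new (a : W) (c : ℝ) (α : Option W → ℝ) :
    real (fun o : Option W => o.elim (p a + c • u) p) α =
      real p (base a α) + (α none * c) • u := by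
  have h1 : real p (base a α) = ∑ w, α (some w) • p w + α none • p a := by
    simp only [real, base, add_smul, sum_add_distrib, ite_smul, zero_smul, sum_ite_eq',
      mem_univ, if_true]
  rw [h1]
  simp only [real, Fintype.sum_option, Option.elim_none, Option.elim_some, smul_add, smul_smul]
  abel

omit [DecidableEq W] in
theorem eraseNone_supp (α : Option W → ℝ) : eraseNone (supp α) = supp fun w => α (some w) := by
  ext w
  simp [mem_eraseNone, mem_supp]

theorem sum_base (a : W) (α : Option W → ℝ) : ∑ w, base a α w = ∑ o, α o := by
  simp only [base, sum_add_distrib, sum_ite_eq', mem_univ, if_true, Fintype.sum_option]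
  ring

theorem supp_base_subset (a : W) (α : Option W → ℝ) :
    supp (base a α) ⊆ insert a (eraseNone (supp α)) := by
  intro w hw
  rw [mem_insert, mem_eraseNone, mem_supp]
  by_cases h1 : w = a
  · exact Or.inl h1
  · rw [mem_supp, base_ne h1] at hw
    exact Or.inr hw

theorem supp_base_of_zero (a : W) (α : Option W → ℝ) (h0 : α none = 0) :
    supp (base a α) = eraseNone (supp α) := by
  ext w
  simp [mem_supp, mem_eraseNone, base, h0]

omit [DecidableEq W] in
theorem height_ge (hT : ∀ w ∈ T, 0 ≤ h (p w)) {β : W → ℝ} (h0 : ∀ w, 0 ≤ β w)
    (hs : supp β ⊆ T) (a : W) : β a * h (p a) ≤ h (real p β) := by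
  have h1 : h (real p β) = ∑ w, β w * h (p w) := by
    simp only [real, map_sum, map_smul, smul_eq_mul]
  rw [h1]
  refine single_le_sum (f := fun w => β w * h (p w)) (fun w _ => ?_) (mem_univ a)
  by_cases hw : β w = 0
  · simp [hw]
  · exact mul_nonneg (h0 w) (hT w (hs (mem_supp.2 hw)))

theorem push_step (hS : PushState U p h u R T) (hu : h u = -1) (a : W) (ha : a ∈ T)
    (hpos : 0 < h (p a)) :
    ∃ (U' : Option W → Set (E × ℝ)) (p' : Option W → X) (T' : Finset (Option W)),
      PushState U' p' h u R T' ∧
      (T'.filter fun o => 0 < h (p' o)).card < (T.filter fun w => 0 < h (p w)).card := by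
  classical
  obtain ⟨U', hrep, hn1, hn2⟩ := cone_step U hS.rep a T ha (hS.ne a)
  set c := h (p a) with hc
  set p' : Option W → X := fun o => o.elim (p a + c • u) p with hp'
  have hreal : ∀ α, real p' α = real p (base a α) + (α none * c) • u := real_new a c
  -- points of the new complex
  have hbase : ∀ α, Pt (Meets U') α → Pt (Meets U) (base a α) := by
    rintro α ⟨h0, h1, h2⟩
    refine ⟨?_, ?_, ?_⟩
    · intro w
      simp only [base]
      split_ifs
      · exact add_nonneg (h0 _) (h0 _)
      · simpa using h0 (some w)
    · rw [sum_base, h1]
    · by_cases hz : α none = 0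
      · rw [supp_base_of_zero a α hz]
        exact (hn1 _ (by simp [mem_supp, hz])).1 h2
      · exact ((hn2 _ (mem_supp.2 hz)).1 h2).2.mono (supp_base_subset a α)
  have hbaseT : ∀ α, Pt (Meets U') α → α none ≠ 0 → supp (base a α) ⊆ T := by
    rintro α ⟨h0, h1, h2⟩ hz
    refine (supp_base_subset a α).trans ?_
    exact insert_subset ha ((hn2 _ (mem_supp.2 hz)).1 h2).1
  set T' : Finset (Option W) := insertNone (T.erase a) with hT'
  have hT'a : ∀ α : Option W → ℝ, supp α ⊆ T' → α (some a) = 0 := by
    intro α hα
    by_contra hne
    have := hα (mem_supp.2 hne)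
    rw [hT', some_mem_insertNone] at this
    exact (mem_erase.1 this).1 rfl
  have hT'T : ∀ α : Option W → ℝ, supp α ⊆ T' → supp (base a α) ⊆ T := by
    intro α hα
    refine (supp_base_subset a α).trans (insert_subset ha ?_)
    intro w hw
    have := hα (mem_eraseNone.1 hw)
    rw [hT', some_mem_insertNone] at this
    exact (mem_erase.1 this).2
  have hle : ∀ α, Pt (Meets U') α → supp (base a α) ⊆ T →
      α none * c ≤ h (real p (base a α)) := by
    intro α hα hs
    have h1 := height_ge hS.nonneg (hbase α hα).1 hs a
    rw [base_self] at h1
    have h2 : 0 ≤ α (some a) * c := mul_nonneg (hα.1 _) hpos.le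
    rw [← hc] at h1
    nlinarith
  have hheight : ∀ α, h (real p' α) = h (real p (base a α)) - α none * c := by
    intro α
    rw [hreal, map_add, map_smul, hu]
    simp only [smul_eq_mul]
    ring
  have hbase_ext : ∀ α β : Option W → ℝ, base a α = base a β → α none = β none → α = β := by
    intro α β hb hn
    funext o
    cases o with
    | none => exact hn
    | some w =>
      have := congrFun hb w
      simp only [base, hn, add_left_inj] at this
      exact this
  refine ⟨U', p', T', ⟨hrep, ?_, ?_, ?_, ?_, ?_, ?_⟩, ?_⟩
  · -- nonempty
    intro o
    cases o with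
    | none =>
      have h1 : Meets U' {none} := by
        rw [hn2 _ (mem_singleton_self _)]
        refine ⟨by simp, ?_⟩
        obtain ⟨x, hx⟩ := hS.ne a
        refine ⟨x, fun i hi => ?_⟩
        simp only [eraseNone_none, insert_empty_eq, mem_singleton] at hi
        rw [hi]
        exact hx
      obtain ⟨x, hx⟩ := h1
      exact ⟨x, hx none (mem_singleton_self _)⟩
    | some w =>
      have h1 : Meets U' {some w} := by
        rw [hn1 _ (by simp)]
        obtain ⟨x, hx⟩ := hS.ne w
        refine ⟨x, fun i hi => ?_⟩
        rw [mem_eraseNone, mem_singleton, Option.some_inj] at hi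
        rw [hi]
        exact hx
      obtain ⟨x, hx⟩ := h1
      exact ⟨x, hx (some w) (mem_singleton_self _)⟩
  · -- injectivity
    intro α β hα hβ heq
    rw [hreal, hreal] at heq
    by_cases h1 : α none = 0
    · by_cases h2 : β none = 0
      · rw [h1, h2] at heq
        refine hbase_ext α β (hS.inj _ _ (hbase α hα) (hbase β hβ) ?_) (by rw [h1, h2])
        simpa using heq
      · exfalso
        have hb : 0 < β none := lt_of_le_of_ne (hβ.1 _) (Ne.symm h2)
        refine hS.above _ _ (hbase α hα) (hbase β hβ) (hbaseT β hβ h2) _ (mul_pos hb hpos)
          (hle β hβ (hbaseT β hβ h2)) ?_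
        rw [← heq, h1]
        simp
    · by_cases h2 : β none = 0
      · exfalso
        have hb : 0 < α none := lt_of_le_of_ne (hα.1 _) (Ne.symm h1)
        refine hS.above _ _ (hbase β hβ) (hbase α hα) (hbaseT α hα h1) _ (mul_pos hb hpos)
          (hle α hα (hbaseT α hα h1)) ?_
        rw [heq, h2]
        simp
      · have hg := hS.graph _ _ (hbase α hα) (hbase β hβ) (hbaseT α hα h1) (hbaseT β hβ h2)
          _ _ (mul_nonneg (hα.1 _) hpos.le) (hle α hα (hbaseT α hα h1))
          (mul_nonneg (hβ.1 _) hpos.le) (hle β hβ (hbaseT β hβ h2)) heq
        have hn : α none = β none := mul_right_cancel₀ hpos.ne' hg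
        rw [hg] at heq
        exact hbase_ext α β (hS.inj _ _ (hbase α hα) (hbase β hβ) (add_right_cancel heq)) hn
  · -- above
    intro α β hα hβ hs l hl hle' heq
    rw [hreal α, hreal β, add_assoc, ← add_smul] at heq
    rw [hheight] at hle'
    have hβa := hT'a β hs
    have hβn : 0 ≤ β none * c := mul_nonneg (hβ.1 _) hpos.le
    by_cases h1 : α none = 0
    · refine hS.above _ _ (hbase α hα) (hbase β hβ) (hT'T β hs) (β none * c + l)
        (by linarith) (by linarith) ?_
      rw [heq, h1]
      simp
    · have hg := hS.graph _ _ (hbase β hβ) (hbase α hα) (hT'T β hs) (hbaseT α hα h1)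
        _ _ (by linarith) (by linarith : β none * c + l ≤ _)
        (mul_nonneg (hα.1 _) hpos.le) (hle α hα (hbaseT α hα h1)) heq
      rw [hg] at heq
      have hb := hS.inj _ _ (hbase β hβ) (hbase α hα) (add_right_cancel heq)
      have hb2 := congrFun hb a
      rw [base_self, base_self, hβa, zero_add] at hb2
      have h3 : α none ≤ β none := by
        have := hα.1 (some a)
        linarith
      have h4 : α none * c ≤ β none * c := mul_le_mul_of_nonneg_right h3 hpos.le
      linarith
  · -- graph
    intro β γ hβ hγ hsβ hsγ l m hl hle1 hm hle2 heq
    rw [hreal β, hreal γ, add_assoc, add_assoc, ← add_smul, ← add_smul] at heq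
    rw [hheight] at hle1 hle2
    have hβa := hT'a β hsβ
    have hγa := hT'a γ hsγ
    have hβn : 0 ≤ β none * c := mul_nonneg (hβ.1 _) hpos.le
    have hγn : 0 ≤ γ none * c := mul_nonneg (hγ.1 _) hpos.le
    have hg := hS.graph _ _ (hbase β hβ) (hbase γ hγ) (hT'T β hsβ) (hT'T γ hsγ)
      (β none * c + l) (γ none * c + m) (by linarith) (by linarith) (by linarith) (by linarith)
      heq
    rw [hg] at heq
    have hb := hS.inj _ _ (hbase β hβ) (hbase γ hγ) (add_right_cancel heq)
    have hb2 := congrFun hb a
    rw [base_self, base_self, hβa, hγa, zero_add, zero_add] at hb2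
    rw [hb2] at hg
    linarith
  · -- region
    intro x
    rw [hS.region x]
    constructor
    · rintro (⟨α, hα, rfl⟩ | ⟨β, hβ, hs, l, hl, hle', rfl⟩)
      · left
        refine ⟨fun o => o.elim 0 α, ⟨?_, ?_, ?_⟩, ?_⟩
        · intro o
          cases o with
          | none => exact le_rfl
          | some w => exact hα.1 w
        · simp only [Fintype.sum_option, Option.elim_none, Option.elim_some, hα.2.1, zero_add]
        · rw [hn1 _ (by simp [mem_supp]), eraseNone_supp]
          exact hα.2.2
        · rw [hreal]
          have : base a (fun o : Option W => o.elim 0 α) = α := by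
            funext w
            simp [base]
          rw [this]
          simp
      · by_cases hcase : l ≤ β a * c
        · left
          set α : Option W → ℝ := fun o => o.elim (l / c) fun w =>
            β w - if w = a then l / c else 0 with hα
          have hb : base a α = β := by
            funext w
            simp only [base, hα, Option.elim_none, Option.elim_some]
            ring
          have hlc : l / c ≤ β a := by
            rw [div_le_iff₀ hpos]
            exact hcase
          have hlc0 : 0 ≤ l / c := div_nonneg hl hpos.le
          refine ⟨α, ⟨?_, ?_, ?_⟩, ?_⟩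
          · intro o
            cases o with
            | none => exact hlc0
            | some w =>
              simp only [hα, Option.elim_some]
              split_ifs with hw
              · rw [hw]
                linarith
              · simpa using hβ.1 w
          · rw [← sum_base a, hb, hβ.2.1]
          · by_cases hz : l = 0
            · have hz' : α none = 0 := by simp [hα, hz]
              rw [hn1 _ (by simp [mem_supp, hz']), ← supp_base_of_zero a α hz', hb]
              exact hβ.2.2
            · have hlpos : 0 < l := lt_of_le_of_ne hl (Ne.symm hz)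
              have hlc1 : 0 < l / c := div_pos hlpos hpos
              have hz' : α none ≠ 0 := by
                simp only [hα, Option.elim_none]
                exact hlc1.ne'
              have hsub : insert a (eraseNone (supp α)) ⊆ supp β := by
                refine insert_subset ?_ ?_
                · rw [mem_supp]
                  linarith
                · intro w hw
                  rw [mem_eraseNone, mem_supp] at hw
                  rw [mem_supp]
                  intro h0
                  by_cases hwa : w = a
                  · rw [hwa] at h0
                    linarith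
                  · apply hw
                    simp [hα, hwa, h0]
              rw [hn2 _ (mem_supp.2 hz')]
              exact ⟨((subset_insert _ _).trans hsub).trans hs, hβ.2.2.mono hsub⟩
          · rw [hreal, hb]
            simp only [hα, Option.elim_none]
            rw [div_mul_cancel₀ _ hpos.ne']
        · right
          push Not at hcase
          set γ : Option W → ℝ := fun o => o.elim (β a) fun w => if w = a then 0 else β w with hγ
          have hb : base a γ = β := by
            funext w
            simp only [base, hγ, Option.elim_none, Option.elim_some]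
            split_ifs with hw
            · rw [hw]
              ring
            · ring
          have hsub : insert a (eraseNone (supp γ)) ⊆ insert a (supp β) := by
            refine insert_subset_insert _ ?_
            intro w hw
            rw [mem_eraseNone, mem_supp] at hw
            rw [mem_supp]
            intro h0
            apply hw
            simp [hγ, h0]
          have hptγ : Pt (Meets U') γ := by
            refine ⟨?_, ?_, ?_⟩
            · intro o
              cases o with
              | none => exact hβ.1 a
              | some w =>
                simp only [hγ, Option.elim_some]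
                split_ifs
                · exact le_rfl
                · exact hβ.1 w
            · rw [← sum_base a, hb, hβ.2.1]
            · by_cases hz : β a = 0
              · have hz' : γ none = 0 := hz
                rw [hn1 _ (by simp [mem_supp, hz']), ← supp_base_of_zero a γ hz', hb]
                exact hβ.2.2
              · have hz' : γ none ≠ 0 := hz
                rw [hn2 _ (mem_supp.2 hz')]
                have h2 : insert a (supp β) = supp β := insert_eq_self.2 (mem_supp.2 hz)
                rw [h2] at hsub
                exact ⟨((subset_insert _ _).trans hsub).trans hs, hβ.2.2.mono hsub⟩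
          have hγn : γ none = β a := rfl
          refine ⟨γ, hptγ, ?_, l - β a * c, by linarith, ?_, ?_⟩
          · intro o ho
            cases o with
            | none => simp [hT']
            | some w =>
              rw [mem_supp] at ho
              rw [hT', some_mem_insertNone, mem_erase]
              have hwa : w ≠ a := by
                rintro rfl
                apply ho
                simp [hγ]
              refine ⟨hwa, hs ?_⟩
              rw [mem_supp]
              intro h0
              apply ho
              simp [hγ, h0]
          · rw [hheight, hb, hγn]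
            linarith
          · rw [hreal, hb, hγn, add_assoc, ← add_smul]
            congr 2
            ring
    · rintro (⟨α, hα, rfl⟩ | ⟨β, hβ, hs, l, hl, hle', rfl⟩)
      · by_cases hz : α none = 0
        · left
          refine ⟨base a α, hbase α hα, ?_⟩
          rw [hreal, hz]
          simp
        · right
          exact ⟨base a α, hbase α hα, hbaseT α hα hz, α none * c,
            mul_nonneg (hα.1 _) hpos.le, hle α hα (hbaseT α hα hz), (hreal α).symm⟩
      · right
        rw [hheight] at hle'
        refine ⟨base a β, hbase β hβ, hT'T β hs, β none * c + l,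
          add_nonneg (mul_nonneg (hβ.1 _) hpos.le) hl, by linarith, ?_⟩
        rw [hreal, add_assoc, ← add_smul]
  · -- nonneg
    intro o ho
    cases o with
    | none =>
      simp only [hp', Option.elim_none, map_add, map_smul, hu, smul_eq_mul]
      linarith
    | some w =>
      rw [hT', some_mem_insertNone] at ho
      exact hS.nonneg w (mem_erase.1 ho).2
  · -- measure
    have hsub : (T'.filter fun o => 0 < h (p' o)) ⊆
        ((T.filter fun w => 0 < h (p w)).erase a).map Function.Embedding.some := by
      intro o ho
      rw [mem_filter] at ho
      cases o with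
      | none =>
        exfalso
        have := ho.2
        simp only [hp', Option.elim_none, map_add, map_smul, hu, smul_eq_mul] at this
        linarith
      | some w =>
        obtain ⟨h1, h2⟩ := ho
        rw [hT', some_mem_insertNone, mem_erase] at h1
        rw [mem_map]
        refine ⟨w, ?_, rfl⟩
        rw [mem_erase, mem_filter]
        exact ⟨h1.1, h1.2, h2⟩
    refine (card_le_card hsub).trans_lt ?_
    rw [card_map]
    exact card_erase_lt_of_mem (mem_filter.2 ⟨ha, hpos⟩)

end

/-- The set `R` is the underlying space of a finite simplicial complex which is the nerve of a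
family of open convex sets with convex union. -/
def Good {X : Type*} [AddCommGroup X] [Module ℝ X] (R : Set X) : Prop :=
  ∃ (W : Type) (_ : Fintype W) (E : Type) (_ : NormedAddCommGroup E) (_ : NormedSpace ℝ E)
    (_ : FiniteDimensional ℝ E) (U : W → Set E) (p : W → X), Rep U ∧ (∀ w, (U w).Nonempty) ∧
    (∀ α β, Pt (Meets U) α → Pt (Meets U) β → real p α = real p β → α = β) ∧
    ∀ x, x ∈ R ↔ ∃ α, Pt (Meets U) α ∧ real p α = x

theorem good_of_push {X : Type*} [AddCommGroup X] [Module ℝ X] (h : X →ₗ[ℝ] ℝ) (u : X)
    (hu : h u = -1) (R : Set X) (n : ℕ) :
    ∀ (W : Type) (_ : Fintype W) (E : Type) (_ : NormedAddCommGroup E) (_ : NormedSpace ℝ E)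
      (_ : FiniteDimensional ℝ E) (U : W → Set E) (p : W → X) (T : Finset W),
      PushState U p h u R T → (T.filter fun w => 0 < h (p w)).card = n → Good R := by
  classical
  induction n using Nat.strong_induction_on with
  | _ n ih =>
    intro W _ E _ _ _ U p T hS hn
    by_cases hex : ∃ a ∈ T, 0 < h (p a)
    · obtain ⟨a, ha, hpos⟩ := hex
      obtain ⟨U', p', T', hS', hlt⟩ := push_step hS hu a ha hpos
      exact ih _ (hn ▸ hlt) (Option W) inferInstance (E × ℝ) inferInstance inferInstance
        inferInstance U' p' T' hS' rfl
    · push Not at hex
      refine ⟨W, inferInstance, E, inferInstance, inferInstance, inferInstance, U, p, hS.rep,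
        hS.ne, hS.inj, fun x => ?_⟩
      rw [hS.region x]
      constructor
      · rintro (hx | ⟨β, hβ, hs, l, hl, hle, rfl⟩)
        · exact hx
        · refine ⟨β, hβ, ?_⟩
          have h1 : h (real p β) = 0 := by
            simp only [real, map_sum, map_smul, smul_eq_mul]
            refine sum_eq_zero fun w _ => ?_
            by_cases hw : β w = 0
            · simp [hw]
            · have hwT := hs (mem_supp.2 hw)
              rw [le_antisymm (hex w hwT) (hS.nonneg w hwT), mul_zero]
          rw [h1] at hle
          rw [le_antisymm hle hl]
          simp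
      · exact Or.inl

end Pool.Agent.H96.CUR
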