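import Pool.Agent.H96.CUR.Collapse

/-!
# Geometric realizations
-/

namespace Pool.Agent.H96.CUR

open Finset

section

variable {W X : Type*} [Fintype W] [AddCommGroup X] [Module ℝ X]

theorem mem_convexHull_image (q : W → X) (s : Finset W) (x : X) :
    x ∈ convexHull ℝ (q '' (s : Set W)) ↔
      ∃ α : W → ℝ, (∀ w, 0 ≤ α w) ∧ (∀ w, w ∉ s → α w = 0) ∧ ∑ w, α w = 1 ∧ real q α = x := by
  classical
  constructor
  · intro hx
    let C : Set X := {x | ∃ α : W → ℝ, (∀ w, 0 ≤ α w) ∧ (∀ w, w ∉ s → α w = 0) ∧
      ∑ w, α w = 1 ∧ real q α = x}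
    have hC : Convex ℝ C := by
      rintro y ⟨α, h1, h2, h3, rfl⟩ z ⟨β, g1, g2, g3, rfl⟩ a b ha hb hab
      refine ⟨a • α + b • β, ?_, ?_, ?_, ?_⟩
      · intro w
        exact add_nonneg (mul_nonneg ha (h1 w)) (mul_nonneg hb (g1 w))
      · intro w hw
        simp [h2 w hw, g2 w hw]
      · simp only [Pi.add_apply, Pi.smul_apply, smul_eq_mul, sum_add_distrib, ← mul_sum, h3, g3]
        linarith
      · simp only [real, Pi.add_apply, Pi.smul_apply, smul_eq_mul, add_smul, sum_add_distrib,
          smul_sum, smul_smul]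
    refine convexHull_min ?_ hC hx
    rintro _ ⟨w, hw, rfl⟩
    have hw' : w ∈ s := hw
    refine ⟨Pi.single w 1, (pt_single (F := fun _ => True) trivial).1, ?_,
      (pt_single (F := fun _ => True) trivial).2.1, real_single q w⟩
    intro i hi
    rw [Pi.single_apply, if_neg]
    rintro rfl
    exact hi hw'
  · rintro ⟨α, h1, h2, h3, rfl⟩
    have h4 : real q α = ∑ w ∈ s, α w • q w := by
      refine (sum_subset (subset_univ s) fun w _ hw => ?_).symm
      rw [h2 w hw, zero_smul]
    have h5 : ∑ w ∈ s, α w = 1 := by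
      rw [← h3]
      exact sum_subset (subset_univ s) fun w _ hw => h2 w hw
    rw [h4]
    exact (convex_convexHull ℝ _).sum_mem (fun w _ => h1 w) h5
      fun w hw => subset_convexHull ℝ _ ⟨w, hw, rfl⟩

/-- Points with support in a face. -/
theorem pt_of_face (K : PreAbstractSimplicialComplex W) {s : Finset W} (hs : s ∈ K.faces)
    {α : W → ℝ} (h0 : ∀ w, 0 ≤ α w) (h1 : ∀ w, w ∉ s → α w = 0) (h2 : ∑ w, α w = 1) :
    Pt (fun s => s ∈ K.faces) α := by
  refine ⟨h0, h2, (K.isRelLowerSet_faces hs).2 ?_ ?_⟩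
  · intro w hw
    by_contra hws
    exact (mem_supp.1 hw) (h1 w hws)
  · by_contra hcon
    rw [not_nonempty_iff_eq_empty] at hcon
    have h3 : ∀ w, α w = 0 := by
      intro w
      by_contra hne
      have := mem_supp.2 hne
      rw [hcon] at this
      simp at this
    simp [h3] at h2

omit [AddCommGroup X] [Module ℝ X] in
theorem sum_restrict [AddCommGroup X] {s : Finset W} (f : W → X) (hf : ∀ w, w ∉ s → f w = 0) :
    ∑ w, f w = ∑ w : (s : Set W), f w := by
  rw [← sum_subset (subset_univ s) fun w _ hw => hf w hw]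
  exact (sum_coe_sort s f).symm

theorem affineIndependent_of_inj (K : PreAbstractSimplicialComplex W) (q : W → X)
    (hinj : ∀ α β, Pt (fun s => s ∈ K.faces) α → Pt (fun s => s ∈ K.faces) β →
      real q α = real q β → α = β) {s : Finset W} (hs : s ∈ K.faces) :
    AffineIndependent ℝ fun w : (s : Set W) => q w := by
  classical
  rw [affineIndependent_iff]
  intro t c hc0 hcq
  -- extend the coefficients to `W`
  set d : W → ℝ := fun w => if h : w ∈ s then (if (⟨w, h⟩ : (s : Set W)) ∈ t then c ⟨w, h⟩ else 0)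
    else 0 with hd
  have hd0 : ∀ w, w ∉ s → d w = 0 := by
    intro w hw
    simp [hd, hw]
  have hde : ∀ w : (s : Set W), d w = if w ∈ t then c w else 0 := by
    rintro ⟨w, hw⟩
    have hw' : w ∈ s := hw
    simp [hd, hw']
  have hsum0 : ∑ w, d w = 0 := by
    rw [sum_restrict d hd0]
    simp only [hde, sum_ite_mem, univ_inter]
    exact hc0
  have hreal0 : ∑ w, d w • q w = 0 := by
    rw [sum_restrict (fun w => d w • q w) (fun w hw => by rw [hd0 w hw, zero_smul])]
    simp only [hde, ite_smul, zero_smul, sum_ite_mem, univ_inter]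
    exact hcq
  have hsne : s.Nonempty := (K.isRelLowerSet_faces hs).1
  have hcard : (0 : ℝ) < (s.card : ℝ) := by exact_mod_cast hsne.card_pos
  set M : ℝ := 1 + ∑ w, |d w| with hM
  have hMpos : 0 < M := by
    have : 0 ≤ ∑ w, |d w| := sum_nonneg fun w _ => abs_nonneg _
    linarith
  have hdM : ∀ w, |d w| ≤ M := by
    intro w
    have := single_le_sum (f := fun w => |d w|) (fun w _ => abs_nonneg _) (mem_univ w)
    linarith
  set b : W → ℝ := fun w => if w ∈ s then 1 / (s.card : ℝ) else 0 with hb
  have hb0 : ∀ w, w ∉ s → b w = 0 := by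
    intro w hw
    simp [hb, hw]
  have hbsum : ∑ w, b w = 1 := by
    simp only [hb, sum_ite_mem, univ_inter, sum_const, nsmul_eq_mul]
    field_simp
  set e : ℝ := 1 / (s.card * M) with he
  have hepos : 0 < e := by positivity
  have h1 : Pt (fun s => s ∈ K.faces) b := by
    refine pt_of_face K hs ?_ hb0 hbsum
    intro w
    simp only [hb]
    split_ifs <;> positivity
  have h2 : Pt (fun s => s ∈ K.faces) (fun w => b w + e * d w) := by
    refine pt_of_face K hs ?_ ?_ ?_
    · intro w
      by_cases hw : w ∈ s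
      · have h3 : b w = 1 / (s.card : ℝ) := by simp [hb, hw]
        have h4 : |e * d w| ≤ 1 / (s.card : ℝ) := by
          rw [abs_mul, abs_of_pos hepos]
          calc e * |d w| ≤ e * M := mul_le_mul_of_nonneg_left (hdM w) hepos.le
            _ = 1 / (s.card : ℝ) := by
              rw [he]
              field_simp
        have h5 := (abs_le.1 h4).1
        rw [h3]
        linarith
      · rw [hb0 w hw, hd0 w hw]
        simp
    · intro w hw
      rw [hb0 w hw, hd0 w hw]
      simp
    · rw [sum_add_distrib, ← mul_sum, hsum0, hbsum]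
      ring
  have h3 : real q (fun w => b w + e * d w) = real q b := by
    simp only [real, add_smul, sum_add_distrib, mul_smul, ← smul_sum, hreal0, smul_zero, add_zero]
  have h4 := hinj _ _ h2 h1 h3
  intro w hw
  have h5 := congrFun h4 w
  simp only [add_eq_left, mul_eq_zero] at h5
  rcases h5 with h5 | h5
  · exact absurd h5 hepos.ne'
  · rw [hde, if_pos hw] at h5
    exact h5

/-- A complex whose vertices are placed at the points `q w` such that the map from the abstract
geometric realization is injective is a geometric simplicial complex. -/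
theorem exists_realization (K : PreAbstractSimplicialComplex W) (q : W → X)
    (hinj : ∀ α β, Pt (fun s => s ∈ K.faces) α → Pt (fun s => s ∈ K.faces) β →
      real q α = real q β → α = β) :
    ∃ S : Geometry.SimplicialComplex ℝ X, (Set.InjOn q {v | {v} ∈ K.faces}) ∧
      ∀ t : Finset X, t ∈ S.faces ↔ ∃ s ∈ K.faces, (t : Set X) = q '' (s : Set W) := by
  classical
  have hq : Set.InjOn q {v | {v} ∈ K.faces} := by
    intro v hv w hw hvw
    have h1 := hinj (Pi.single v 1) (Pi.single w 1) (pt_single hv) (pt_single hw)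
      (by rw [real_single, real_single, hvw])
    by_contra hne
    have h2 := congrFun h1 v
    rw [Pi.single_eq_same, Pi.single_eq_of_ne hne] at h2
    exact one_ne_zero h2
  have hvert : ∀ s ∈ K.faces, ∀ w ∈ s, {w} ∈ K.faces := fun s hs w hw =>
    (K.isRelLowerSet_faces hs).2 (singleton_subset_iff.2 hw) (singleton_nonempty w)
  refine ⟨⟨⟨{t | ∃ s ∈ K.faces, (t : Set X) = q '' (s : Set W)}, ?_⟩, ?_, ?_⟩, hq, ?_⟩
  · rintro t ⟨s, hs, hts⟩
    constructor
    · rw [← coe_nonempty, hts]
      exact (coe_nonempty.2 (K.isRelLowerSet_faces hs).1).image q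
    · intro t' ht't ht'
      have ht't' : (t' : Set X) ⊆ q '' (s : Set W) := by
        rw [← hts]
        exact_mod_cast ht't
      refine ⟨s.filter fun w => q w ∈ t', (K.isRelLowerSet_faces hs).2 (filter_subset _ _) ?_, ?_⟩
      · obtain ⟨x, hx⟩ := ht'
        obtain ⟨w, hw, rfl⟩ := ht't' hx
        exact ⟨w, mem_filter.2 ⟨hw, hx⟩⟩
      · ext x
        constructor
        · intro hx
          obtain ⟨w, hw, rfl⟩ := ht't' hx
          exact ⟨w, mem_coe.2 (mem_filter.2 ⟨hw, hx⟩), rfl⟩
        · rintro ⟨w, hw, rfl⟩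
          exact (mem_filter.1 (mem_coe.1 hw)).2
  · rintro t ⟨s, hs, hts⟩
    have h1 := affineIndependent_of_inj K q hinj hs
    have h2 := h1.range
    have h3 : Set.range (fun w : (s : Set W) => q w) = (t : Set X) := by
      rw [hts]
      ext x
      simp
    rw [h3] at h2
    exact h2
  · rintro t t' ⟨s, hs, hts⟩ ⟨s', hs', hts'⟩ x ⟨hx, hx'⟩
    rw [hts] at hx
    rw [hts'] at hx'
    obtain ⟨α, h0, h1, h2, h3⟩ := (mem_convexHull_image q s x).1 hx
    obtain ⟨β, g0, g1, g2, g3⟩ := (mem_convexHull_image q s' x).1 hx'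
    have hαβ : α = β := hinj _ _ (pt_of_face K hs h0 h1 h2) (pt_of_face K hs' g0 g1 g2)
      (h3.trans g3.symm)
    have h4 : x ∈ convexHull ℝ (q '' ((s ∩ s' : Finset W) : Set W)) := by
      rw [mem_convexHull_image]
      refine ⟨α, h0, fun w hw => ?_, h2, h3⟩
      rw [mem_inter, not_and_or] at hw
      rcases hw with hw | hw
      · exact h1 w hw
      · rw [hαβ]
        exact g1 w hw
    refine convexHull_mono ?_ h4
    rw [hts, hts', coe_inter]
    exact Set.image_inter_subset _ _ _
  · intro t
    exact Iff.rfl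

end

end Pool.Agent.H96.CUR
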